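import Pool.Agent.TH619.SingZ
import Pool.Agent.TH619.Fin2

/-!
A smooth tight immersion of a closed connected 3-manifold with 3-torsion.

The manifold is the unit normal circle bundle of a closed oriented surface immersed smoothly and
tightly in Euclidean 4-space, and the immersion is the tube of small radius around the surface. The
normal Euler number of the surface is six up to sign, so that the first integral homology of the
circle bundle contains an element of order 6.

The definitions `STight` (tightness with respect to a field) and `STor` (torsion in integral
singular homology) are in `Pool.Agent.TH619.SingZ`.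
-/

set_option autoImplicit false

namespace Pool.Agent.Results.MP_c88051_gt.TightOddTorsion

open scoped Manifold ContDiff
open Pool.Agent.TH619 (STight STor)

/-- `M`, with the given topology and the given atlas (charts are homeomorphisms from open subsets of
`M` to open subsets of `ℝⁿ`), is a closed connected smooth manifold of dimension `n`: it is
Hausdorff, compact and connected, and the transition maps are smooth. -/
def ClosedManifold (n : ℕ) (M : Type) [TopologicalSpace M]
    [ChartedSpace (EuclideanSpace ℝ (Fin n)) M] : Prop :=
  T2Space M ∧ CompactSpace M ∧ ConnectedSpace M ∧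
    IsManifold 𝓘(ℝ, EuclideanSpace ℝ (Fin n)) ∞ M

/-- `f : M → F` is a smooth immersion of the manifold `M` (with model space `H`) into the normed
space `F`: it is smooth, and its differential is injective at every point. -/
def SmoothImmersion {H F M : Type} [NormedAddCommGroup H] [NormedSpace ℝ H]
    [NormedAddCommGroup F] [NormedSpace ℝ F] [TopologicalSpace M] [ChartedSpace H M]
    (f : M → F) : Prop :=
  ContMDiff 𝓘(ℝ, H) 𝓘(ℝ, F) ∞ f ∧ ∀ x : M, Function.Injective (mfderiv 𝓘(ℝ, H) 𝓘(ℝ, F) f x)

/-- There are a closed connected smooth `3`-manifold `M` and a smooth immersion `f : M → ℝ⁴` which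
is tight with respect to the field with two elements, such that the integral singular homology of
`M` contains an element of order `3`. -/
theorem result :
    ∃ (M : Type) (_ : TopologicalSpace M) (_ : ChartedSpace (EuclideanSpace ℝ (Fin 3)) M)
      (f : M → EuclideanSpace ℝ (Fin 4)),
      ClosedManifold 3 M ∧ SmoothImmersion (H := EuclideanSpace ℝ (Fin 3)) f ∧
        STight (ZMod 2) f ∧ STor 3 M := by
  obtain ⟨N, t, h1, h2, h3, c, h4, f, h5, h6, h7, h8⟩ := Pool.Agent.TH619.main_thm
  exact ⟨N, t, c, f, ⟨h1, h2, h3, h4⟩, ⟨h5, h6⟩, h7, h8⟩

end Pool.Agent.Results.MP_c88051_gt.TightOddTorsion
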